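import Mathlib
import Pool.Agent.H93.ET.Defs

/-!
# The exact growth threshold for the synthesis property: the cosines (row ORT)
-/

namespace Pool.Agent.H70.ET

open MeasureTheory AddCircle Finset Pool.Agent.H87.Synth Pool.Agent.H85.SC Pool.Agent.H93.ET

theorem int_fourier (n : ℤ) :
    ∫ x, (fourier n x : ℂ) ∂(haarAddCircle : Measure Circ) = if n = 0 then 1 else 0 := by
  have h := congrFun (fourierCoeff_fourier (T := 2 * Real.pi) n) 0
  unfold fourierCoeff at h
  simp only [neg_zero, fourier_zero, one_smul] at h
  rw [h]
  by_cases hn : n = 0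
  · subst hn
    simp
  · rw [if_neg hn, Pi.single_eq_of_ne (Ne.symm hn)]

theorem integrable_fourier (n : ℤ) :
    Integrable (fun x : Circ => (fourier n x : ℂ)) haarAddCircle :=
  (fourier n).continuous.integrable_of_hasCompactSupport (HasCompactSupport.of_compactSpace _)

theorem int_cs (n : ℤ) :
    ∫ x, cs n x ∂(haarAddCircle : Measure Circ) = if n = 0 then 1 else 0 := by
  have h := Complex.reCLM.integral_comp_comm (integrable_fourier n)
  rw [int_fourier] at h
  unfold cs
  simp only [Complex.reCLM_apply] at h
  rw [h]
  split_ifs <;> simp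

theorem integrable_cs (n : ℤ) :
    Integrable (fun x : Circ => cs n x) haarAddCircle := (integrable_fourier n).re

theorem cs_mul (s t : ℤ) (x : Circ) : cs s x * cs t x = (cs (s + t) x + cs (s - t) x) / 2 := by
  unfold cs
  rw [sub_eq_add_neg, fourier_add, fourier_add, fourier_neg]
  simp only [Complex.mul_re, Complex.conj_re, Complex.conj_im]
  ring

theorem ort : T_ORT := by
  refine ⟨fun t => Complex.continuous_re.comp (fourier t).continuous, fun t x => ?_,
    fun s t hs ht => ?_⟩
  · refine (Complex.abs_re_le_norm _).trans ?_
    refine ((fourier t).norm_coe_le_norm x).trans ?_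
    rw [fourier_norm]
  · have h : ∀ x, cs s x * cs t x = (cs (s + t) x + cs (s - t) x) / 2 := cs_mul s t
    simp only [h]
    rw [integral_div, integral_add (integrable_cs _) (integrable_cs _), int_cs, int_cs,
      if_neg (by omega)]
    by_cases hst : s = t
    · rw [if_pos hst, if_pos (by omega)]
      norm_num
    · rw [if_neg hst, if_neg (by omega)]
      norm_num

end Pool.Agent.H70.ET
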