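import Mathlib
import Pool.Agent.H93.ET.Defs
import Pool.Agent.H65.SC.APM
import Pool.Agent.H65.SC.EMB
import Pool.Agent.H65.SC.TRP
import Pool.Agent.H4.SC.MUL
import Pool.Agent.H29.SC.ECH

/-!
# The exact growth threshold for the synthesis property: the function (row PTF)
-/

namespace Pool.Agent.H70.ET

open MeasureTheory AddCircle Finset Pool.Agent.H87.Synth Pool.Agent.H85.SC Pool.Agent.H93.ET

theorem kern (A B : ℕ) (hA0 : 0 < A) (hAB : A < B) (h3 : A + B ≤ 3 * (B - A)) :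
    ∃ K : L1, ‖K‖ ≤ 3 ∧ ∀ z, coeff K z = trap A B z := by
  have hA' : (0 : ℝ) < A := by exact_mod_cast hA0
  have hAB' : (A : ℝ) < B := by exact_mod_cast hAB
  have h3' : (A : ℝ) + B ≤ 3 * ((B : ℝ) - A) := by
    have h : ((A + B : ℕ) : ℝ) ≤ ((3 * (B - A) : ℕ) : ℝ) := by exact_mod_cast h3
    rw [Nat.cast_mul, Nat.cast_sub hAB.le] at h
    push_cast at h
    exact h
  have hd : (0 : ℝ) < B - A := by linarith
  have hAc : (((A - 1 : ℕ) : ℝ)) + 1 = A := by
    rw [Nat.cast_sub hA0]; simp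
  have hBc : (((B - 1 : ℕ) : ℝ)) + 1 = B := by
    rw [Nat.cast_sub (by omega : 1 ≤ B)]; simp
  refine ⟨((((B : ℝ) - A)⁻¹ : ℝ) : ℂ) • ((((B : ℝ)) : ℂ) • fejerK (B - 1) -
    (((A : ℝ)) : ℂ) • fejerK (A - 1)), ?_, fun z => ?_⟩
  · rw [norm_smul, Complex.norm_real, norm_inv, Real.norm_of_nonneg hd.le]
    have h1 := norm_sub_le ((((B : ℝ)) : ℂ) • fejerK (B - 1)) ((((A : ℝ)) : ℂ) • fejerK (A - 1))
    rw [norm_smul, norm_smul, norm_fejerK, norm_fejerK, Complex.norm_real, Complex.norm_real,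
      Real.norm_of_nonneg (by positivity), Real.norm_of_nonneg (by positivity), mul_one,
      mul_one] at h1
    rw [inv_mul_le_iff₀ hd]
    linarith
  · rw [coeff_smul, coeff_sub, coeff_smul, coeff_smul, coeff_fejerK, coeff_fejerK, hAc, hBc]
    have h3 := Pool.Agent.H65.SC.trap_eq A B hA0 hAB z
    have h5 : (trap A B z : ℝ) = ((B : ℝ) - A)⁻¹ * ((B : ℝ) * max 0 (1 - |(z : ℝ)| / B) -
        A * max 0 (1 - |(z : ℝ)| / A)) := by
      rw [h3]
      field_simp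
    rw [h5]
    push_cast
    ring

theorem trap_one {A B : ℕ} (hAB : A < B) {z : ℤ} (hz : |z| ≤ A) : trap A B z = 1 := by
  have hAB' : (A : ℝ) < B := by exact_mod_cast hAB
  have hz' : |(z : ℝ)| ≤ A := by exact_mod_cast hz
  have h2 : 1 ≤ ((B : ℝ) - |(z : ℝ)|) / (B - A) := by
    rw [le_div_iff₀ (by linarith)]
    linarith
  unfold trap
  rw [min_eq_left h2, max_eq_right zero_le_one]

theorem trap_zero {A B : ℕ} (hAB : A < B) {z : ℤ} (hz : (B : ℤ) ≤ |z|) : trap A B z = 0 := by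
  have hAB' : (A : ℝ) < B := by exact_mod_cast hAB
  have hz' : (B : ℝ) ≤ |(z : ℝ)| := by exact_mod_cast hz
  have h4 : ((B : ℝ) - |(z : ℝ)|) / (B - A) ≤ 0 :=
    div_nonpos_of_nonpos_of_nonneg (by linarith) (by linarith)
  unfold trap
  exact max_eq_left (le_trans (min_le_right _ _) h4)

/-- a multiplier applied to the difference of two kernels -/
theorem piece (M : ℤ → ℂ) (C : ℝ) (hM : MulB M C) (hC : 0 ≤ C) (A B A' B' : ℕ) (hA : 0 < A)
    (hAB : A < B) (h3 : A + B ≤ 3 * (B - A)) (hA' : 0 < A') (hAB' : A' < B')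
    (h3' : A' + B' ≤ 3 * (B' - A')) (c : ℂ) :
    ∃ x : L1, ‖x‖ ≤ ‖c‖ * (C * 6) ∧
      ∀ z, coeff x z = c * (M z * ((trap A B z - trap A' B' z : ℝ) : ℂ)) := by
  obtain ⟨T, hT1, hT2⟩ := hM
  obtain ⟨K, hK1, hK2⟩ := kern A B hA hAB h3
  obtain ⟨K', hK1', hK2'⟩ := kern A' B' hA' hAB' h3'
  refine ⟨c • T (K - K'), ?_, fun z => ?_⟩
  · rw [norm_smul]
    refine mul_le_mul_of_nonneg_left ((hT2 _).trans (mul_le_mul_of_nonneg_left ?_ hC))
      (norm_nonneg _)
    have := norm_sub_le K K'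
    linarith
  · rw [coeff_smul, hT1, coeff_sub, hK2, hK2']
    push_cast
    ring

theorem fMUL : T_MUL := Pool.Agent.H4.SC.mul
theorem fAPM : T_APM := Pool.Agent.H65.SC.apm Pool.Agent.H29.SC.eap Pool.Agent.H29.SC.ech
  Pool.Agent.H65.SC.emb fMUL

/-- the coefficients of the bulk piece -/
noncomputable def blkc {d : ℕ → ℝ} (D : Dat d) (k : ℕ) (z : ℤ) : ℂ :=
  (1 / 3 : ℂ) ^ k * ((ind (fun z => ((6 : ℕ) : ℤ) ∣ z - 2 * ((k : ℤ) % 2)) z -
    ind (fun z => ((6 : ℕ) : ℤ) ∣ z - (2 * ((k : ℤ) % 2) + 1)) z) *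
    ((trap (36 * D.b (D.mu (k + 1))) (72 * D.b (D.mu (k + 1))) z -
      trap (2 * D.b (D.mu k)) (4 * D.b (D.mu k)) z : ℝ) : ℂ))

/-- the coefficients of the gadget piece -/
noncomputable def gadc {d : ℕ → ℝ} (D : Dat d) (k : ℕ) (z : ℤ) : ℂ :=
  (1 / 3 : ℂ) ^ (k + 1) * ((ind (fun z => ((6 : ℕ) : ℤ) ∣ z - 4) z *
      ((chi (2 * k) 0 z : ℂ) + (chi (2 * k) 1 z : ℂ) + (chi (2 * k) 2 z : ℂ))) *
    ((trap (24 * D.b (D.mu (k + 1))) (48 * D.b (D.mu (k + 1))) z -
      trap (3 * D.b (D.mu (k + 1))) (6 * D.b (D.mu (k + 1))) z : ℝ) : ℂ))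

theorem sqrt_pr_le (k j : ℕ) (hj : j ≤ 2) : Real.sqrt (pr (2 * k) j) ≤ 8 * 2 ^ k := by
  rw [Real.sqrt_le_left (by positivity)]
  have h1 : pr (2 * k) j ≤ 2 ^ (2 * k + 3 + j) := pr_le _ _
  have h2 : 2 ^ (2 * k + 3 + j) ≤ 2 ^ (2 * k + 6) := Nat.pow_le_pow_right (by norm_num) (by omega)
  have h3 : ((pr (2 * k) j : ℕ) : ℝ) ≤ ((2 ^ (2 * k + 6) : ℕ) : ℝ) := by
    exact_mod_cast h1.trans h2
  refine h3.trans (le_of_eq ?_)
  push_cast
  rw [pow_add, mul_comm 2 k, pow_mul, mul_pow]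
  ring

theorem p_pos {d : ℕ → ℝ} (D : Dat d) (k : ℕ) : 0 < D.b (D.mu k) := by
  induction k with
  | zero => have := D.p0; omega
  | succ k ih => have := D.grow k; omega

theorem p_mono {d : ℕ → ℝ} (D : Dat d) {k k' : ℕ} (h : k ≤ k') :
    D.b (D.mu k) ≤ D.b (D.mu k') :=
  D.hb.monotone (D.hmu.monotone h)

theorem p_grow {d : ℕ → ℝ} (D : Dat d) {k k' : ℕ} (h : k < k') :
    20 * D.b (D.mu k) ≤ D.b (D.mu k') :=
  (D.grow k).trans (p_mono D h)

theorem exists_blk {d : ℕ → ℝ} (D : Dat d) (k : ℕ) :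
    ∃ x : L1, ‖x‖ ≤ 12 * (1 / 3) ^ k ∧ ∀ z, coeff x z = blkc D k z := by
  have hp := p_pos D k
  have hp' := p_pos D (k + 1)
  obtain ⟨x, hx1, hx2⟩ := piece _ _ (fMUL.2.2.2.1 _ _ _ _
    (fAPM.1 6 (2 * ((k : ℤ) % 2)) (by norm_num)) (fAPM.1 6 (2 * ((k : ℤ) % 2) + 1) (by norm_num)))
    (by norm_num) (36 * D.b (D.mu (k + 1))) (72 * D.b (D.mu (k + 1))) (2 * D.b (D.mu k))
    (4 * D.b (D.mu k)) (by omega) (by omega) (by omega) (by omega) (by omega) (by omega)
    ((1 / 3 : ℂ) ^ k)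
  refine ⟨x, hx1.trans (le_of_eq ?_), hx2⟩
  rw [norm_pow]
  norm_num
  ring

theorem exists_gad {d : ℕ → ℝ} (D : Dat d) (k : ℕ) :
    ∃ x : L1, ‖x‖ ≤ 48 * (2 / 3) ^ k ∧ ∀ z, coeff x z = gadc D k z := by
  have hp' := p_pos D (k + 1)
  have hm := fMUL.2.2.2.2.1 _ _ _ _ (fAPM.1 6 4 (by norm_num)) (fMUL.2.2.1 _ _ _ _
    (fMUL.2.2.1 _ _ _ _ (fAPM.2.2.2.2.1 (2 * k) 0) (fAPM.2.2.2.2.1 (2 * k) 1))
    (fAPM.2.2.2.2.1 (2 * k) 2))
  obtain ⟨x, hx1, hx2⟩ := piece _ _ hm (by positivity) (24 * D.b (D.mu (k + 1)))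
    (48 * D.b (D.mu (k + 1))) (3 * D.b (D.mu (k + 1)))
    (6 * D.b (D.mu (k + 1))) (by omega) (by omega) (by omega) (by omega) (by omega) (by omega)
    ((1 / 3 : ℂ) ^ (k + 1))
  refine ⟨x, hx1.trans ?_, hx2⟩
  have e0 := sqrt_pr_le k 0 (by norm_num)
  have e1 := sqrt_pr_le k 1 (by norm_num)
  have e2 := sqrt_pr_le k 2 (by norm_num)
  have e3 : ‖(1 / 3 : ℂ) ^ (k + 1)‖ = (1 / 3) ^ (k + 1) := by
    rw [norm_pow]
    norm_num
  rw [e3]
  have e4 : (48 : ℝ) * (2 / 3) ^ k = (1 / 3) ^ (k + 1) * (1 * (3 * (8 * 2 ^ k)) * 6) := by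
    rw [pow_succ, div_pow, div_pow, one_pow]
    field_simp
    norm_num
  rw [e4]
  refine mul_le_mul_of_nonneg_left ?_ (by positivity)
  linarith

theorem ind_of {P : ℤ → Prop} {z : ℤ} (h : P z) : ind P z = 1 := by
  unfold ind
  rw [if_pos h]

theorem ind_not {P : ℤ → Prop} {z : ℤ} (h : ¬ P z) : ind P z = 0 := by
  unfold ind
  rw [if_neg h]

theorem blkc_zero {d : ℕ → ℝ} (D : Dat d) (k : ℕ) (z : ℤ)
    (h1 : ¬ (6 : ℤ) ∣ z - 2 * ((k : ℤ) % 2)) (h2 : ¬ (6 : ℤ) ∣ z - (2 * ((k : ℤ) % 2) + 1)) :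
    blkc D k z = 0 := by
  unfold blkc
  rw [ind_not (P := fun z => ((6 : ℕ) : ℤ) ∣ z - 2 * ((k : ℤ) % 2)) h1,
    ind_not (P := fun z => ((6 : ℕ) : ℤ) ∣ z - (2 * ((k : ℤ) % 2) + 1)) h2]
  simp

theorem gadc_zero {d : ℕ → ℝ} (D : Dat d) (k : ℕ) (z : ℤ) (h1 : ¬ (6 : ℤ) ∣ z - 4) :
    gadc D k z = 0 := by
  unfold gadc
  rw [ind_not (P := fun z => ((6 : ℕ) : ℤ) ∣ z - 4) h1]
  simp

theorem blkc_eq {d : ℕ → ℝ} (D : Dat d) (k : ℕ) (z : ℤ) {a b : ℝ}
    (h1 : trap (36 * D.b (D.mu (k + 1))) (72 * D.b (D.mu (k + 1))) z = a)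
    (h2 : trap (2 * D.b (D.mu k)) (4 * D.b (D.mu k)) z = b) :
    blkc D k z = (1 / 3 : ℂ) ^ k * ((ind (fun z => ((6 : ℕ) : ℤ) ∣ z - 2 * ((k : ℤ) % 2)) z -
      ind (fun z => ((6 : ℕ) : ℤ) ∣ z - (2 * ((k : ℤ) % 2) + 1)) z) * ((a - b : ℝ) : ℂ)) := by
  unfold blkc
  rw [h1, h2]

theorem ptf (h : T_PNT) : T_PTF := by
  intro d D
  obtain ⟨hP1, hP2, hP3, hP4, hP5, hP6⟩ := h d D
  choose x hx1 hx2 using exists_blk D
  choose y hy1 hy2 using exists_gad D
  have hsum : Summable fun k => x k + y k := by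
    refine Summable.of_norm_bounded (g := fun k => 12 * (1 / 3 : ℝ) ^ k + 48 * (2 / 3) ^ k)
      (Summable.add ((summable_geometric_of_lt_one (by norm_num) (by norm_num)).mul_left _)
        ((summable_geometric_of_lt_one (by norm_num) (by norm_num)).mul_left _)) fun k => ?_
    exact (norm_add_le _ _).trans (add_le_add (hx1 k) (hy1 k))
  have hco : ∀ z k, (∀ k', k' ≠ k → blkc D k' z = 0 ∧ gadc D k' z = 0) →
      coeff (∑' k, (x k + y k)) z = blkc D k z + gadc D k z := by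
    intro z k hz
    rw [← coeffL_apply, (coeffL z).map_tsum hsum]
    rw [tsum_eq_single k]
    · rw [map_add, coeffL_apply, coeffL_apply, hx2, hy2]
    · intro k' hk'
      rw [map_add, coeffL_apply, coeffL_apply, hx2, hy2, (hz k' hk').1, (hz k' hk').2, add_zero]
  refine ⟨∑' k, (x k + y k), ?_, ?_⟩
  · intro k t i s hg hi
    obtain ⟨q1, q2⟩ := hP1 k t i s hg hi
    have hres : ∃ m : ℤ, pt k t i s = 6 * m + 2 * ((k : ℤ) % 2) + jj s :=
      ⟨2 * t + i, by unfold pt; ring⟩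
    obtain ⟨m, hm⟩ := hres
    have hj : jj s = 0 ∨ jj s = 1 := by
      unfold jj
      cases s <;> simp
    rw [hco (pt k t i s) k]
    · rw [gadc_zero D k _ (by omega), add_zero]
      have hp := p_pos D (k + 1)
      have hp' := p_pos D k
      rw [blkc_eq D k _ (trap_one (by omega) (by push_cast; exact q2))
        (trap_zero (by omega) (by push_cast; omega))]
      cases s
      · have e : jj false = 1 := rfl
        rw [e] at hm
        rw [ind_not (P := fun z => ((6 : ℕ) : ℤ) ∣ z - 2 * ((k : ℤ) % 2)) (by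
            show ¬ (6 : ℤ) ∣ _
            omega),
          ind_of (P := fun z => ((6 : ℕ) : ℤ) ∣ z - (2 * ((k : ℤ) % 2) + 1)) (by
            show (6 : ℤ) ∣ _
            omega)]
        simp [sg]
      · have e : jj true = 0 := rfl
        rw [e] at hm
        rw [ind_of (P := fun z => ((6 : ℕ) : ℤ) ∣ z - 2 * ((k : ℤ) % 2)) (by
            show (6 : ℤ) ∣ _
            omega),
          ind_not (P := fun z => ((6 : ℕ) : ℤ) ∣ z - (2 * ((k : ℤ) % 2) + 1)) (by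
            show ¬ (6 : ℤ) ∣ _
            omega)]
        simp [sg]
    · intro k' hk'
      refine ⟨?_, gadc_zero D k' _ (by omega)⟩
      by_cases hpar : (k' : ℤ) % 2 = (k : ℤ) % 2
      · rcases lt_or_gt_of_ne hk' with hlt | hgt
        · have e1 := p_grow D (show k' + 1 < k by omega)
          have e2 := p_mono D (show k' ≤ k' + 1 by omega)
          have e3 := p_pos D k'
          have e4 := p_pos D (k' + 1)
          rw [blkc_eq D k' _ (trap_zero (by omega) (by push_cast; omega))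
            (trap_zero (by omega) (by push_cast; omega))]
          simp
        · have e1 := p_grow D (show k + 1 < k' by omega)
          have e2 := p_mono D (show k' ≤ k' + 1 by omega)
          have e3 := p_pos D k'
          have e4 := p_pos D (k' + 1)
          rw [blkc_eq D k' _ (trap_one (by omega) (by push_cast; omega))
            (trap_one (by omega) (by push_cast; omega))]
          simp
      · exact blkc_zero D k' _ (by omega) (by omega)
  · intro k z hz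
    obtain ⟨q1, q2⟩ := hP6 k z hz
    have hz4 : z % 6 = 4 := (Finset.mem_filter.1 hz).2
    have hL := D.gadp k
    have hza : |z| = z := abs_of_nonneg (by omega)
    have hb0 : ∀ k', blkc D k' z = 0 := fun k' => blkc_zero D k' z (by omega) (by omega)
    have hp := p_pos D (k + 1)
    rw [hco z k]
    · rw [hb0, zero_add]
      unfold gadc
      rw [trap_one (by omega) (by rw [hza]; push_cast; omega),
        trap_zero (by omega) (by rw [hza]; push_cast; omega),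
        ind_of (P := fun z => ((6 : ℕ) : ℤ) ∣ z - 4) (by
          show (6 : ℤ) ∣ _
          omega)]
      unfold cm
      push_cast
      ring
    · intro k' hk'
      refine ⟨hb0 k', ?_⟩
      have e4 := p_pos D (k' + 1)
      rcases lt_or_gt_of_ne hk' with hlt | hgt
      · have e1 := p_grow D (show k' + 1 < k + 1 by omega)
        unfold gadc
        rw [trap_zero (by omega) (by rw [hza]; push_cast; omega),
          trap_zero (by omega) (by rw [hza]; push_cast; omega)]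
        simp
      · have e1 := p_grow D (show k + 1 < k' + 1 by omega)
        unfold gadc
        rw [trap_one (by omega) (by rw [hza]; push_cast; omega),
          trap_one (by omega) (by rw [hza]; push_cast; omega)]
        simp

end Pool.Agent.H70.ET
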